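import Pool.Agent.H13.Bitrade.Final

open Pool.Agent.H13.Bitrade

namespace Pool.Agent.Results.MP_afce15_co.ExponentialOrder

/-- There are latin bitrades `(W n, B n)` of size `57 (n + 4) + 1` for which the least order of a
finite abelian group embedding both mates is exactly `14225153 ^ (n + 4)`; in particular it is
finite and at least `(4/3) ^ |W n|`. -/
theorem result :
    ∃ (R C S : Type) (W B : ℕ → Finset (R × C × S)),
      (∀ n, IsBitrade (W n) (B n)) ∧
      (∀ n, (W n).card = 57 * (n + 4) + 1) ∧
      (∀ n, minOrder (W n) (B n) = ((14225153 ^ (n + 4) : ℕ) : ℕ∞)) ∧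
      ∀ n, ((4 : ℝ) / 3) ^ (W n).card ≤ ((minOrder (W n) (B n)).toNat : ℝ) := by
  refine ⟨Line, Line, Sym, fun n => chainW (n + 4), fun n => chainB (n + 4),
    fun n => isBitrade_chain (by omega), fun n => card_chainW _,
    fun n => minOrder_chain (by omega), fun n => ?_⟩
  simp only
  rw [minOrder_chain (by omega), card_chainW, ENat.toNat_natCast]
  push_cast
  exact growth (by omega)

end Pool.Agent.Results.MP_afce15_co.ExponentialOrder
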